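import Pool.Agent.Helper70.EC.St

set_option autoImplicit false
set_option linter.unusedSimpArgs false

/-!
# Project EC, module BP: parametrisation of the cosets of point stabilisers
-/

namespace Pool.Agent.Helper76.EC

open Pool.Agent.Helper70.EC
open Pool.Agent.Helper1.PFS

variable {p : ℕ} [Fact p.Prime]

theorem mu_apply_BP (c : (ZMod p)ˣ) (s : ZMod p) :
    (mm c * uu s : G p).1 0 0 = c ∧ (mm c * uu s : G p).1 0 1 = c * s ∧
    (mm c * uu s : G p).1 1 0 = 0 ∧ (mm c * uu s : G p).1 1 1 = ((c⁻¹ : (ZMod p)ˣ) : ZMod p) := by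
  obtain ⟨m00, m01, m10, m11⟩ := mm_apply c
  obtain ⟨u00, u01, u10, u11⟩ := uu_apply s
  refine ⟨?_, ?_, ?_, ?_⟩
  · simp only [mul_apply, m00, m01, m10, m11, u00, u01, u10, u11]; ring
  · simp only [mul_apply, m00, m01, m10, m11, u00, u01, u10, u11]; ring
  · simp only [mul_apply, m00, m01, m10, m11, u00, u01, u10, u11]; ring
  · simp only [mul_apply, m00, m01, m10, m11, u00, u01, u10, u11]; ring

theorem mu_inj_BP {c c' : (ZMod p)ˣ} {s s' : ZMod p} (h : (mm c * uu s : G p) = mm c' * uu s') :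
    c = c' ∧ s = s' := by
  obtain ⟨a0, a1, -, -⟩ := mu_apply_BP c s
  obtain ⟨b0, b1, -, -⟩ := mu_apply_BP c' s'
  have hc : c = c' := by
    apply Units.ext
    rw [← a0, ← b0, h]
  subst hc
  refine ⟨rfl, ?_⟩
  have h1 : (c : ZMod p) * s = c * s' := by rw [← a1, ← b1, h]
  exact mul_left_cancel₀ c.ne_zero h1

theorem mu_inv_BP (c : (ZMod p)ˣ) (s : ZMod p) :
    (mm c * uu s : G p)⁻¹ = mm c⁻¹ * uu (-((c : ZMod p) ^ 2 * s)) := by
  rw [inv_eq_iff_mul_eq_one]
  obtain ⟨a0, a1, a2, a3⟩ := mu_apply_BP c s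
  obtain ⟨b0, b1, b2, b3⟩ := mu_apply_BP c⁻¹ (-((c : ZMod p) ^ 2 * s))
  have hc : (c : ZMod p) * ((c⁻¹ : (ZMod p)ˣ) : ZMod p) = 1 := Units.mul_inv c
  have h1 : (1 : G p).1 0 0 = 1 ∧ (1 : G p).1 0 1 = 0 ∧ (1 : G p).1 1 0 = 0 ∧ (1 : G p).1 1 1 = 1 := by
    refine ⟨?_, ?_, ?_, ?_⟩ <;> simp
  obtain ⟨o0, o1, o2, o3⟩ := h1
  rw [inv_inv] at b3
  apply G_ext
  · rw [mul_apply, a0, a1, b0, b2, o0]
    linear_combination hc
  · rw [mul_apply, a0, a1, b1, b3, o1]
    linear_combination (-(c : ZMod p) ^ 2 * s) * hc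
  · rw [mul_apply, a2, a3, b0, b2, o2]
    ring
  · rw [mul_apply, a2, a3, b1, b3, o3]
    linear_combination hc

theorem mu_ex_BP (g : G p) (h : g.1 1 0 = 0) : ∃ c s, g = mm c * uu s := by
  have hd := det_eq g
  rw [h, mul_zero, sub_zero] at hd
  have h0 : g.1 0 0 ≠ 0 := by
    intro h0
    rw [h0, zero_mul] at hd
    exact zero_ne_one hd
  refine ⟨Units.mk0 (g.1 0 0) h0, (g.1 0 0)⁻¹ * g.1 0 1, ?_⟩
  obtain ⟨a0, a1, a2, a3⟩ := mu_apply_BP (Units.mk0 (g.1 0 0) h0) ((g.1 0 0)⁻¹ * g.1 0 1)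
  apply G_ext
  · rw [a0, Units.val_mk0]
  · rw [a1, Units.val_mk0, mul_inv_cancel_left₀ h0]
  · rw [a2, h]
  · rw [a3]
    have h1 : ((Units.mk0 (g.1 0 0) h0)⁻¹ : (ZMod p)ˣ).1 = (g.1 0 0)⁻¹ := by simp
    rw [h1]
    exact eq_inv_of_mul_eq_one_right hd

theorem pt_ne_BP (τ : ZMod p) : pt τ ≠ inf' p := by
  intro h
  unfold pt inf' at h
  rw [Projectivization.mk_eq_mk_iff'] at h
  obtain ⟨a, ha⟩ := h
  have h1 := congrFun ha 1
  simp at h1

theorem fix_BP (g : G p) : g • inf' p = inf' p ↔ g.1 1 0 = 0 := by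
  constructor
  · intro h
    by_contra hc
    rw [smul_inf_ne g hc] at h
    exact pt_ne_BP _ h
  · exact smul_inf_zero g

theorem ptx_BP (z : Pt p) (hz : z ≠ inf' p) : ∃ τ, z = pt τ := by
  have h : (kk z).1 1 0 ≠ 0 := by
    intro h
    apply hz
    have := smul_inf_zero (kk z) h
    rw [kk_smul] at this
    exact this
  refine ⟨(kk z).1 0 0 * ((kk z).1 1 0)⁻¹, ?_⟩
  rw [← smul_inf_ne (kk z) h, kk_smul]

theorem uupt_BP (t τ : ZMod p) : (uu t : G p) • pt τ = pt (τ + t) := by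
  obtain ⟨x00, x01, x10, x11⟩ := xt_apply (p := p) τ
  obtain ⟨u00, u01, u10, u11⟩ := uu_apply (p := p) t
  have h1 : (xt τ : G p) • inf' p = pt τ := by
    rw [smul_inf_ne _ (by rw [x10]; exact one_ne_zero), x00, x10, inv_one, mul_one]
  rw [← h1, smul_smul]
  have h10 : (uu t * xt τ : G p).1 1 0 = 1 := by
    rw [mul_apply, u10, u11, x00, x10]; ring
  have h00 : (uu t * xt τ : G p).1 0 0 = τ + t := by
    rw [mul_apply, u00, u01, x00, x10]; ring
  rw [smul_inf_ne _ (by rw [h10]; exact one_ne_zero), h00, h10, inv_one, mul_one]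

theorem bp1_BP (x y : Pt p) (g : G p) : g • x = y ↔ ∃ c s, g = bp x y c s := by
  have key : g • x = y ↔ ((kk y)⁻¹ * g * kk x) • inf' p = inf' p := by
    rw [mul_smul, kk_smul, mul_smul, inv_smul_eq_iff, kk_smul]
  rw [key, fix_BP]
  constructor
  · intro h
    obtain ⟨c, s, hcs⟩ := mu_ex_BP _ h
    refine ⟨c, s, ?_⟩
    unfold bp
    rw [← hcs]
    group
  · rintro ⟨c, s, h⟩
    have : (kk y)⁻¹ * g * kk x = mm c * uu s := by
      rw [h]
      unfold bp
      group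
    rw [this]
    exact (mu_apply_BP c s).2.2.1

theorem bp2_BP (x y : Pt p) (c : (ZMod p)ˣ) (s : ZMod p) (c' : (ZMod p)ˣ) (s' : ZMod p)
    (h : bp x y c s = bp x y c' s') : c = c' ∧ s = s' := by
  unfold bp at h
  exact mu_inj_BP (mul_left_cancel (mul_right_cancel h))

theorem bp4_BP (x y : Pt p) (c : (ZMod p)ˣ) (s s' : ZMod p) :
    bp x y c s * (kk x * uu s' * (kk x)⁻¹) = bp x y c (s + s') := by
  unfold bp
  rw [uu_add]
  group

theorem bps_BP (x y : Pt p) (c : (ZMod p)ˣ) (s : ZMod p) : bp x y c s • x = y :=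
  (bp1_BP x y _).2 ⟨c, s, rfl⟩

theorem hBP : StBP := by
  intro p _ x y
  refine ⟨bp1_BP x y, bp2_BP x y, ?_, bp4_BP x y, ?_, ?_⟩
  · intro c s
    unfold bp
    rw [mul_inv_rev, mul_inv_rev, inv_inv, mu_inv_BP, ← mul_assoc]
  · intro f hf
    classical
    have h1 : ∑ g, f g = ∑ g ∈ Finset.univ.filter (fun g : G p => g • x = y), f g := by
      rw [Finset.sum_filter]
      refine Finset.sum_congr rfl fun g _ => ?_
      by_cases h : g • x = y
      · rw [if_pos h]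
      · rw [if_neg h, hf g h]
    rw [h1, ← Fintype.sum_prod_type' (f := fun c s => f (bp x y c s))]
    symm
    refine Finset.sum_bij (fun q _ => bp x y q.1 q.2) ?_ ?_ ?_ ?_
    · intro q _
      rw [Finset.mem_filter]
      exact ⟨Finset.mem_univ _, bps_BP x y _ _⟩
    · intro q _ q' _ h
      obtain ⟨e1, e2⟩ := bp2_BP x y _ _ _ _ h
      exact Prod.ext e1 e2
    · intro g hg
      obtain ⟨c, s, h⟩ := (bp1_BP x y g).1 (Finset.mem_filter.1 hg).2
      exact ⟨(c, s), Finset.mem_univ _, h.symm⟩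
    · intro q _
      rfl
  · intro x' y' hx _ c s s' h1 h2
    have h3 : (kk x * uu (s' - s) * (kk x)⁻¹) • x' = x' := by
      have h4 : bp x y c s' = bp x y c s * (kk x * uu (s' - s) * (kk x)⁻¹) := by
        rw [bp4_BP]
        congr 1
        ring
      rw [h4, mul_smul, ← h1] at h2
      exact MulAction.injective _ h2
    have h5 : (kk x)⁻¹ • x' ≠ inf' p := by
      intro h
      apply hx
      rw [inv_smul_eq_iff, kk_smul] at h
      exact h.symm
    obtain ⟨τ, hτ⟩ := ptx_BP _ h5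
    have h6 : (uu (s' - s) : G p) • ((kk x)⁻¹ • x') = (kk x)⁻¹ • x' := by
      rw [mul_smul, mul_smul] at h3
      rw [eq_inv_smul_iff]
      exact h3
    rw [hτ, uupt_BP] at h6
    have h7 := pt_inj h6
    linear_combination -h7

end Pool.Agent.Helper76.EC
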